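import Pool.Agent.Helper99.AB.Stmts

/-!
Row T1 of MP_1f31dd, project AB.
-/

set_option autoImplicit false

namespace Pool.Agent.Helper28.AB

open Pool.Agent.Helper99.AB Finset

theorem le_cube (κ M : ℝ) (hM : 1 < M) :
    Le κ M / Real.log M ^ 4 * Le κ M ^ 2 = κ ^ 2 * Qm κ M := by
  have h1 : 0 < Real.log M := Real.log_pos hM
  have h2 : Real.sqrt M ^ 2 = M := Real.sq_sqrt (by linarith)
  unfold Le Qm
  have h3 : (κ * Real.sqrt M * Real.log M) / Real.log M ^ 4 * (κ * Real.sqrt M * Real.log M) ^ 2 =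
      κ ^ 3 * (Real.sqrt M ^ 2 * Real.sqrt M) / Real.log M := by
    field_simp
  rw [h3, h2]
  ring

theorem st_T1 : ST_Z1 → ST_Z2 → ST_Z3 → ST_T1 := by
  intro h1 ⟨C2, hC2, h2⟩ ⟨C3, hC3, h3⟩
  refine ⟨12 * C2 * C3, by positivity, ?_⟩
  intro κ hκ hκ1
  obtain ⟨M1, hM1⟩ := h1 κ hκ hκ1
  obtain ⟨M2, hM2⟩ := h2 κ hκ hκ1
  obtain ⟨M3, hM3⟩ := h3 κ hκ hκ1
  refine ⟨max (max M1 M2) (max M3 2), fun M hM => ?_⟩
  have e1 := hM1 M ((le_max_left _ _).trans ((le_max_left _ _).trans hM))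
  have e2 := hM2 M ((le_max_right _ _).trans ((le_max_left _ _).trans hM))
  have e3 := hM3 M ((le_max_left _ _).trans ((le_max_right _ _).trans hM))
  have e4 : (2 : ℝ) ≤ M := (le_max_right _ _).trans ((le_max_right _ _).trans hM)
  have hL : 0 ≤ Le κ M := by
    unfold Le
    have : 0 ≤ Real.log M := Real.log_nonneg (by linarith)
    positivity
  have e5 : (∑ k : Fin 6, ∑ r ∈ (RR κ M).filter (fun r => EE k r.1 r.2.1 r.2.2 ≠ 0),
      1 / (r.1 : ℝ) * G (EE k r.1 r.2.1 r.2.2) ^ 18) ≤ 6 * (C3 * Le κ M ^ 2) := by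
    refine (Finset.sum_le_sum fun k _ => e3 k).trans ?_
    simp
  have e6 : (((TP κ M).filter (fun s => s.1.1 + s.1.2 ≠ s.2.1 + s.2.2)).card : ℝ) ≤
      2 * ((ZZ κ M).card : ℝ) := by exact_mod_cast e1
  have hq : 0 ≤ C2 * (Le κ M / Real.log M ^ 4) := by
    have : 0 ≤ Real.log M ^ 4 := by positivity
    positivity
  calc (((TP κ M).filter (fun s => s.1.1 + s.1.2 ≠ s.2.1 + s.2.2)).card : ℝ)
      ≤ 2 * ((ZZ κ M).card : ℝ) := e6
    _ ≤ 2 * (C2 * (Le κ M / Real.log M ^ 4) * (6 * (C3 * Le κ M ^ 2))) := by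
        have := mul_le_mul_of_nonneg_left e5 hq
        linarith
    _ = 12 * C2 * C3 * (Le κ M / Real.log M ^ 4 * Le κ M ^ 2) := by ring
    _ = 12 * C2 * C3 * (κ ^ 2 * Qm κ M) := by rw [le_cube κ M (by linarith)]

end Pool.Agent.Helper28.AB
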